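import Pool.Agent.H10.IEP.Targets
import Pool.Agent.H7.HD.All8

/-!
# The matrix of Ulam
-/

open Ordinal Cardinal Order Set
open scoped ZFSet

universe u

namespace Pool.Agent.H1.IEP

open _root_.HD

/-- the relation with code `c` is single valued below `b` and maps `G` onto `b` -/
def Sur (en : Ordinal.{u} → ZFSet.{u}) (G c b : Ordinal.{u}) : Prop :=
  (∀ x < G, ∀ i < b, ∀ i' < b, i ∈ E2 en c x → i' ∈ E2 en c x → i = i') ∧
    ∀ i < b, ∃ x < G, i ∈ E2 en c x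

theorem do_Sur {en : Ordinal.{u} → ZFSet.{u}} (hE2 : DO fun w => w 0 ∈ E2 en (w 2) (w 1))
    (G : Ordinal.{u}) : DO fun w => Sur en G (w 0) (w 1) := by
  refine DO.and ?_ ?_
  · refine DO.allLtc (R := fun x w => ∀ i < w 1, ∀ i' < w 1, i ∈ E2 en (w 0) x →
      i' ∈ E2 en (w 0) x → i = i') G ?_
    refine DO.allLt (R := fun i w => ∀ i' < w 2, i ∈ E2 en (w 1) (w 0) →
      i' ∈ E2 en (w 1) (w 0) → i = i') 2 ?_
    refine DO.allLt (R := fun i' w => w 0 ∈ E2 en (w 2) (w 1) →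
      i' ∈ E2 en (w 2) (w 1) → w 0 = i') 3 ?_
    exact (DO.s3 (X := fun a x c => a ∈ E2 en c x) hE2 1 2 3).imp
      ((DO.s3 (X := fun a x c => a ∈ E2 en c x) hE2 0 2 3).imp (DO.eq 1 0))
  · refine DO.allLt (R := fun i w => ∃ x < G, i ∈ E2 en (w 0) x) 1 ?_
    refine DO.exLtc (R := fun x w => w 0 ∈ E2 en (w 1) x) G ?_
    exact DO.s3 (X := fun a x c => a ∈ E2 en c x) hE2 1 0 2

/-- the `ξ`-th column of the matrix -/
def Sx (en : Ordinal.{u} → ZFSet.{u}) (G B ξ b i : Ordinal.{u}) : Prop :=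
  G < b ∧ b < B ∧ i < b ∧ ∃ c, Sur en G c b ∧ (∀ c' < c, ¬ Sur en G c' b) ∧ i ∈ E2 en c ξ

theorem dr_Sx {en : Ordinal.{u} → ZFSet.{u}} (hE2 : DO fun w => w 0 ∈ E2 en (w 2) (w 1))
    (G B ξ : Ordinal.{u}) : DR (Sx en G B ξ) := by
  have hS := do_Sur hE2 G
  refine (DO.gtc 0 G).and ((DO.ltc 0 B).and ((DO.lt 1 0).and ?_))
  refine DO.ex (R := fun c w => Sur en G c (w 0) ∧ (∀ c' < c, ¬ Sur en G c' (w 0)) ∧
    w 1 ∈ E2 en c ξ) ?_
  refine (DO.s2 (X := fun c b => Sur en G c b) hS 0 1).and (DO.and ?_ ?_)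
  · refine DO.allLt (R := fun c' w => ¬ Sur en G c' (w 1)) 0 ?_
    exact (DO.s2 (X := fun c b => Sur en G c b) hS 0 2).not
  · refine DO.sub (R := fun x w => w 2 ∈ E2 en (w 0) x) ξ ?_
    exact DO.s3 (X := fun a x c => a ∈ E2 en c x) hE2 3 0 1

theorem Sx.unique {en : Ordinal.{u} → ZFSet.{u}} {G B ξ : Ordinal.{u}} (hξ : ξ < G)
    {b i i' : Ordinal.{u}} (h : Sx en G B ξ b i) (h' : Sx en G B ξ b i') : i = i' := by
  obtain ⟨_, _, hi, c, hc, hm, hic⟩ := h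
  obtain ⟨_, _, hi', c', hc', hm', hic'⟩ := h'
  have hcc : c = c' := by
    rcases lt_trichotomy c c' with h1 | h1 | h1
    · exact absurd hc (hm' c h1)
    · exact h1
    · exact absurd hc' (hm c' h1)
  subst hcc
  exact hc.1 ξ hξ i hi i' hi' hic hic'

theorem pf_UL : T_UL.{u} := by
  intro γ hγ hon κ hκ0 hκK
  have hKr : (succ γ).IsRegular := Cardinal.isRegular_succ hγ
  have hγK : γ < succ γ := lt_succ γ
  have hK0 : ℵ₀ < succ γ := hγ.trans_lt hγK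
  have hcof : (succ γ).ord.cof = succ γ := hKr.cof_ord
  have hGK : γ.ord < (succ γ).ord := Cardinal.ord_lt_ord.2 hγK
  have hlim : IsSuccLimit (succ γ).ord := Cardinal.isSuccLimit_ord hK0.le
  obtain ⟨en, hen⟩ := All.en.{u}
  obtain ⟨hE, hE2, hS, hR2⟩ := All.ea en hen
  have hmin : ∀ b, γ.ord < b → b < (succ γ).ord →
      ∃ c, Sur en γ.ord c b ∧ ∀ c' < c, ¬ Sur en γ.ord c' b := by
    intro b hb hbK
    obtain ⟨f, hf, hfun, hfs⟩ := hon b hb hbK
    obtain ⟨c, hc⟩ := hR2 _ hf.od.dr b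
    have hSur : Sur en γ.ord c b := by
      refine ⟨fun x hx i hi i' hi' h h' => ?_, fun i hi => ?_⟩
      · have h1 := ((hc x i).1 h).2.2
        have h2 := ((hc x i').1 h').2.2
        exact toZFSet_injective
          ((hfun.2 x.toZFSet (toZFSet_mem_toZFSet_iff.2 hx)).unique h1 h2)
      · obtain ⟨x, hx, h⟩ := hfs i hi
        exact ⟨x, hx, (hc x i).2 ⟨hx.trans hb, hi, h⟩⟩
    have hne : {c | Sur en γ.ord c b}.Nonempty := ⟨c, hSur⟩
    exact ⟨sInf {c | Sur en γ.ord c b}, csInf_mem hne, fun c' h h' =>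
      absurd (csInf_le' (s := {c | Sur en γ.ord c b}) h') (not_le.2 h)⟩
  have hpos : ∀ i < (succ γ).ord, ∃ x < γ.ord,
      Pos (ℵ₀ : Cardinal.{u}).ord (succ γ).ord {b | Sx en γ.ord (succ γ).ord x b i} := by
    intro i hi
    by_contra hno
    push Not at hno
    have h1 := All.va (ℵ₀ : Cardinal.{u}).ord (succ γ).ord (by rw [hcof]; exact hK0) γ.ord
      (by rw [hcof, Cardinal.card_ord]; exact hγK) _ hno
    have h2 : ¬ Pos (ℵ₀ : Cardinal.{u}).ord (succ γ).ord (Iio (succ (max i γ.ord))) :=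
      All.vb _ _ _ hlim (hlim.succ_lt (max_lt hi hGK))
    have h3 := null_union All.va (by rw [hcof]; exact hK0) h1 h2
    have h4 := All.vc (ℵ₀ : Cardinal.{u}) (succ γ).ord Cardinal.isRegular_aleph0
      (by rw [hcof]; exact hK0)
    refine h3 (h4.mono fun b hb _ _ => ?_)
    by_cases h : b < succ (max i γ.ord)
    · exact Or.inr h
    · have h5 : max i γ.ord < b := succ_le_iff.1 (not_lt.1 h)
      have hib : i < b := lt_of_le_of_lt (le_max_left _ _) h5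
      have hGb : γ.ord < b := lt_of_le_of_lt (le_max_right _ _) h5
      obtain ⟨c, hc, hcm⟩ := hmin b hGb hb
      obtain ⟨x, hx, hix⟩ := hc.2 i hib
      exact Or.inl ⟨x, hx, hGb, hb, hib, c, hc, hcm, hix⟩
  choose! xi hxi1 hxi2 using hpos
  obtain ⟨ξ, hξ, hunb⟩ : ∃ ξ < γ.ord, ∀ l < (succ γ).ord, ∃ i, l ≤ i ∧ i < (succ γ).ord ∧
      xi i = ξ := by
    by_contra hno
    push Not at hno
    choose! l hl hl2 using hno
    obtain ⟨s, hs, hs2⟩ := Pool.Agent.H3.HD.exists_bound (ρ := (succ γ).ord) (τ := γ.ord)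
      (by rw [hcof, Cardinal.card_ord]; exact hγK) l hl
    have h1 := hxi1 s hs
    exact hl2 (xi s) h1 s (hs2 _ h1) hs rfl
  refine All.ub (succ γ) (Sx en γ.ord (succ γ).ord ξ) hKr hK0 (dr_Sx hE2 _ _ _)
    (fun b i i' h h' => h.unique hξ h') (fun l hl => ?_) κ hκ0 hκK
  obtain ⟨i, h1, h2, h3⟩ := hunb l hl
  exact ⟨i, h1, h2, h3 ▸ hxi2 i h2⟩

end Pool.Agent.H1.IEP
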